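import Mathlib

/-! SELECTION for NSLJ (text 36942 of helper66): the numbers `gam b = Σ_j min (ε_j) b`, the maximal pair `(ρ, k)`. Real
numbers only: an object has a family of functions `f` (`f b = H (Q_b | V)`, on all events). -/

set_option autoImplicit false

namespace Pool.Agent.Helper84.NJ

open Finset

noncomputable section

variable {N : ℕ}

/-- the form of the threshold -/
def gam (ε : Fin N → ℝ) (b : ℝ) : ℝ := ∑ j, min (ε j) b

/-- the number of the `ε j` at most `b` -/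
def kap (ε : Fin N → ℝ) (b : ℝ) : ℕ := (univ.filter fun j => ε j ≤ b).card

/-- the expected entropy at the level `b` -/
def cst (ε : Fin N → ℝ) (b : ℝ) : ℝ := N * b - gam ε b

theorem kap_le (ε : Fin N → ℝ) (b : ℝ) : kap ε b ≤ N := by
  unfold kap
  exact (card_filter_le _ _).trans (by simp)

theorem cst_eq_sum (ε : Fin N → ℝ) (b : ℝ) : cst ε b = ∑ j, (b - min (ε j) b) := by
  unfold cst gam
  rw [sum_sub_distrib]
  simp

theorem cst_zero {ε : Fin N → ℝ} (h : ∀ j, 0 ≤ ε j) : cst ε 0 = 0 := by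
  rw [cst_eq_sum]
  exact sum_eq_zero fun j _ => by rw [min_eq_right (h j)]; ring

theorem cst_mono (ε : Fin N → ℝ) {b b' : ℝ} (h : b ≤ b') : cst ε b ≤ cst ε b' := by
  rw [cst_eq_sum, cst_eq_sum]
  refine sum_le_sum fun j _ => ?_
  rcases le_total (ε j) b with h1 | h1
  · rw [min_eq_left h1, min_eq_left (h1.trans h)]; linarith
  · rw [min_eq_right h1]
    have := min_le_right (ε j) b'
    linarith

/-- if no `ε j` is in the open interval `(b, b')`, then the expected entropy is linear with slope `kap ε b` -/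
theorem cst_lin {ε : Fin N → ℝ} {b b' : ℝ} (h : b ≤ b') (hn : ∀ j, ε j ≤ b ∨ b' ≤ ε j) :
    cst ε b' = cst ε b + kap ε b * (b' - b) := by
  rw [cst_eq_sum, cst_eq_sum]
  have e : ((kap ε b : ℕ) : ℝ) * (b' - b) = ∑ j, if ε j ≤ b then b' - b else 0 := by
    unfold kap
    rw [← sum_filter, sum_const, nsmul_eq_mul]
  rw [e, ← sum_add_distrib]
  refine sum_congr rfl fun j _ => ?_
  by_cases h1 : ε j ≤ b
  · rw [if_pos h1, min_eq_left h1, min_eq_left (h1.trans h)]; ring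
  · have h2 : b' ≤ ε j := (hn j).resolve_left h1
    rw [if_neg h1, min_eq_right h2, min_eq_right (h.trans h2)]; ring

/-- the same for `gam` -/
theorem gam_lin {ε : Fin N → ℝ} {b b' : ℝ} (h : b ≤ b') (hn : ∀ j, ε j ≤ b ∨ b' ≤ ε j) :
    gam ε b' = gam ε b + (N - kap ε b) * (b' - b) := by
  have h1 := cst_lin h hn
  unfold cst at h1
  linarith

/-- the next `ε j`: beyond `b` there is no `ε j` for a while, and then either one of them or none at all -/
theorem exists_next (ε : Fin N → ℝ) (b : ℝ) : (∀ j, ε j ≤ b) ∨ ∃ i, b < ε i ∧ ∀ j, ε j ≤ b ∨ ε i ≤ ε j := by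
  by_cases h : ∀ j, ε j ≤ b
  · exact Or.inl h
  · right
    obtain ⟨j0, h0⟩ := not_forall.mp h
    have hne : (univ.filter fun j => b < ε j).Nonempty := ⟨j0, by simp [not_le.mp h0]⟩
    obtain ⟨i, hi, hmin⟩ := exists_min_image (univ.filter fun j => b < ε j) ε hne
    refine ⟨i, (mem_filter.mp hi).2, fun j => ?_⟩
    by_cases h1 : ε j ≤ b
    · exact Or.inl h1
    · exact Or.inr (hmin j (by simp; linarith [not_le.mp h1]))

/-- all `ε j ≤ b`: the slope is `N` -/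
theorem kap_all {ε : Fin N → ℝ} {b : ℝ} (h : ∀ j, ε j ≤ b) : kap ε b = N := by
  unfold kap
  rw [filter_true_of_mem fun j _ => h j]
  simp

/-- `(ρ, k)` is feasible for a family of functions -/
def Fea (ε : Fin N → ℝ) (G : Set (ℝ → ℝ)) (ρ : ℝ) (k : ℕ) : Prop :=
  ∀ f ∈ G, (∀ b, 0 ≤ b → b ≤ ρ → f b = cst ε b) ∧ ∀ r, 0 ≤ r → ρ + r ≤ 1 → cst ε ρ + k * r ≤ f (ρ + r)

theorem Fea.anti {ε : Fin N → ℝ} {G : Set (ℝ → ℝ)} {ρ : ℝ} {k k' : ℕ} (h : Fea ε G ρ k) (hk : k' ≤ k) :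
    Fea ε G ρ k' := by
  intro f hf
  refine ⟨(h f hf).1, fun r h0 h1 => le_trans ?_ ((h f hf).2 r h0 h1)⟩
  have h2 : (k' : ℝ) ≤ k := by exact_mod_cast hk
  have := mul_le_mul_of_nonneg_right h2 h0
  linarith

/-- conditions on the functions of an object -/
structure Obj (ε : Fin N → ℝ) (d : ℝ) (G : Set (ℝ → ℝ)) : Prop where
  ne : G.Nonempty
  mono : ∀ f ∈ G, ∀ b b', 0 ≤ b → b ≤ b' → b' ≤ 1 → f b ≤ f b'
  zero : ∀ f ∈ G, f 0 = 0
  le : ∀ f ∈ G, ∀ b, 0 ≤ b → b ≤ 1 → f b ≤ cst ε b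
  top : ∀ f ∈ G, f 1 ≤ cst ε 1 - d

/-- a feasible slope which is not less than the expected one: the next `ρ` is feasible -/
theorem Fea.next {ε : Fin N → ℝ} {d : ℝ} {G : Set (ℝ → ℝ)} (hO : Obj ε d G) (hd : 0 < d) (h1 : ∀ j, ε j < 1) {ρ : ℝ}
    {k : ℕ} (h0 : 0 ≤ ρ) (hρ : ρ ≤ 1) (h : Fea ε G ρ k) (hk : kap ε ρ ≤ k) :
    ∃ i, ρ < ε i ∧ Fea ε G (ε i) 0 := by
  rcases exists_next ε ρ with hn | ⟨i, hi, hn⟩
  · exfalso
    obtain ⟨f, hf⟩ := hO.ne
    have h2 := (h f hf).2 (1 - ρ) (by linarith) (by linarith)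
    rw [show ρ + (1 - ρ) = 1 by ring] at h2
    have h3 := cst_lin (ε := ε) hρ fun j => Or.inl (hn j)
    have h4 := hO.top f hf
    have h5 : ((kap ε ρ : ℕ) : ℝ) * (1 - ρ) ≤ k * (1 - ρ) :=
      mul_le_mul_of_nonneg_right (by exact_mod_cast hk) (by linarith)
    linarith
  · refine ⟨i, hi, fun f hf => ?_⟩
    have hc : ∀ b, 0 ≤ b → b ≤ ε i → f b = cst ε b := by
      intro b hb0 hb
      rcases le_total b ρ with h6 | h6
      · exact (h f hf).1 b hb0 h6
      · apply le_antisymm (hO.le f hf b hb0 (hb.trans (h1 i).le))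
        have h2 := (h f hf).2 (b - ρ) (by linarith) (by linarith [h1 i])
        rw [show ρ + (b - ρ) = b by ring] at h2
        have h3 := cst_lin (ε := ε) h6 fun j => (hn j).imp_right fun h => hb.trans h
        have h5 : ((kap ε ρ : ℕ) : ℝ) * (b - ρ) ≤ k * (b - ρ) :=
          mul_le_mul_of_nonneg_right (by exact_mod_cast hk) (by linarith)
        linarith
    refine ⟨hc, fun r hr0 hr1 => ?_⟩
    have h7 := hO.mono f hf (ε i) (ε i + r) (by linarith) (by linarith) hr1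
    rw [hc (ε i) (by linarith) le_rfl] at h7
    simpa using h7

/-- **SELECTION**: a maximal pair `(ρ, k)`; `k` is less than the expected slope and `k + 1` is not feasible for any object -/
theorem sel {O : Type*} [Nonempty O] {ε : Fin N → ℝ} {d : ℝ} {G : O → Set (ℝ → ℝ)} (hd : 0 < d) (hε : ∀ j, 0 ≤ ε j)
    (h1 : ∀ j, ε j < 1) (hO : ∀ o, Obj ε d (G o)) :
    ∃ (ρ : ℝ) (k : ℕ) (o : O), 0 ≤ ρ ∧ ρ < 1 ∧ k < kap ε ρ ∧ Fea ε (G o) ρ k ∧ ∀ o', ¬ Fea ε (G o') ρ (k + 1) := by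
  classical
  -- the possible values of `ρ`
  set P : Finset ℝ := insert 0 (univ.image ε) with hP
  have hP0 : ∀ ρ ∈ P, 0 ≤ ρ ∧ ρ < 1 := by
    intro ρ hρ
    rcases mem_insert.mp hρ with rfl | hρ
    · exact ⟨le_rfl, one_pos⟩
    · obtain ⟨j, _, rfl⟩ := mem_image.mp hρ
      exact ⟨hε j, h1 j⟩
  set A : Finset ℝ := P.filter fun ρ => ∃ o, Fea ε (G o) ρ 0 with hA
  have hAne : A.Nonempty := by
    refine ⟨0, mem_filter.mpr ⟨mem_insert_self _ _, Classical.arbitrary O, fun f hf => ?_⟩⟩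
    have hO' := hO (Classical.arbitrary O)
    constructor
    · intro b hb0 hb
      rw [le_antisymm hb hb0, hO'.zero f hf, cst_zero hε]
    · intro r hr0 hr1
      rw [cst_zero hε, zero_add, zero_add, Nat.cast_zero, zero_mul]
      have h2 := hO'.mono f hf 0 r le_rfl hr0 (by linarith)
      rw [hO'.zero f hf] at h2
      exact h2
  obtain ⟨ρ, hρA, hmax⟩ := exists_max_image A id hAne
  have hρP := (mem_filter.mp hρA).1
  obtain ⟨o0, ho0⟩ := (mem_filter.mp hρA).2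
  obtain ⟨h0, hρ1⟩ := hP0 ρ hρP
  -- a feasible slope is less than the expected one
  have hlt : ∀ (k : ℕ) (o : O), Fea ε (G o) ρ k → k < kap ε ρ := by
    intro k o ho
    by_contra hk
    obtain ⟨i, hi, hfea⟩ := ho.next (hO o) hd h1 h0 hρ1.le (not_lt.mp hk)
    have h3 : ε i ∈ A := mem_filter.mpr ⟨mem_insert_of_mem (mem_image_of_mem _ (mem_univ i)), o, hfea⟩
    have h4 := hmax _ h3
    simp only [id] at h4
    linarith
  set B : Finset ℕ := (range (kap ε ρ)).filter fun k => ∃ o, Fea ε (G o) ρ k with hB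
  have hBne : B.Nonempty := ⟨0, mem_filter.mpr ⟨mem_range.mpr (hlt 0 o0 ho0), o0, ho0⟩⟩
  obtain ⟨k, hkB, hkmax⟩ := exists_max_image B id hBne
  obtain ⟨o, ho⟩ := (mem_filter.mp hkB).2
  refine ⟨ρ, k, o, h0, hρ1, hlt k o ho, ho, fun o' ho' => ?_⟩
  have h5 : k + 1 ∈ B := mem_filter.mpr ⟨mem_range.mpr (hlt _ o' ho'), o', ho'⟩
  have h6 := hkmax _ h5
  simp only [id] at h6
  omega

/-- the exponent at the level `ρ + r` exceeds the threshold by `r` -/
theorem gam_gap {ε : Fin N → ℝ} {ρ : ℝ} {k : ℕ} (hk : k < kap ε ρ) :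
    ∃ r0 : ℝ, 0 < r0 ∧ ∀ r, 0 ≤ r → r ≤ r0 → gam ε (ρ + r) + r ≤ gam ε ρ + (N - k) * r := by
  have key : ∀ r0 : ℝ, (∀ j, ε j ≤ ρ ∨ ρ + r0 ≤ ε j) → ∀ r, 0 ≤ r → r ≤ r0 →
      gam ε (ρ + r) + r ≤ gam ε ρ + (N - k) * r := by
    intro r0 hn r hr0 hr
    have h2 := gam_lin (ε := ε) (b := ρ) (b' := ρ + r) (by linarith) fun j => (hn j).imp_right fun h => by linarith
    have h3 : (k : ℝ) + 1 ≤ kap ε ρ := by exact_mod_cast hk
    rw [h2, show ρ + r - ρ = r by ring]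
    nlinarith
  rcases exists_next ε ρ with hn | ⟨i, hi, hn⟩
  · exact ⟨1, one_pos, key 1 fun j => Or.inl (hn j)⟩
  · exact ⟨ε i - ρ, by linarith, key _ fun j => (hn j).imp_right fun h => by linarith⟩

end

end Pool.Agent.Helper84.NJ
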